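import Pool.Agent.D0H64.MX.Stm3
import Pool.Agent.TH228.J3101

set_option autoImplicit false

/-! Project MX (helper64), module FEWE: few Galois extensions with a given group, with the exponent of `Cnte`. -/

namespace Pool.Agent.D0H49.MX

open NumberField Filter Topology Pool.Agent.TH444.ML Pool.Agent.D0H64.MX
open Pool.Agent.TH228.J3101 (nf dsc_eq one_le main)

theorem t_FEWE : S_FEWE := by
  intro K Ω _ _ _ _ _ H _ _ U hU e s he hcnt hes
  obtain ⟨C, hC⟩ := hcnt
  have key : ∀ M : Gal K Ω H, ∃ F : IntermediateField K Ω, FiniteDimensional K F ∧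
      Module.finrank K F = U.index ∧ F ≤ M.1 ∧ dsc F ^ Nat.card U ≤ dsc M.1 ∧
      ∀ N : IntermediateField K Ω, Normal K N → F ≤ N → N ≤ M.1 → N = M.1 := by
    rintro ⟨M, hfd, hg, ⟨e⟩⟩
    exact main M e U hU
  choose F hfd hfr hFM hdsc hN using key
  have inj : Function.Injective F := by
    intro M1 M2 h12
    have g1 : IsGalois K M1.1 := M1.2.2.1
    have g2 : IsGalois K M2.1 := M2.2.2.1
    have hn : Normal K (M1.1 ⊓ M2.1 : IntermediateField K Ω) := inferInstance
    have e1 := hN M1 (M1.1 ⊓ M2.1) hn (le_inf (hFM M1) (by rw [h12]; exact hFM M2)) inf_le_left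
    have e2 := hN M2 (M1.1 ⊓ M2.1) hn (le_inf (by rw [← h12]; exact hFM M1) (hFM M2))
      inf_le_right
    exact Subtype.ext (e1.symm.trans e2)
  have hnF : ∀ M, NumberField (F M) := fun M => by have := hfd M; exact nf _
  have hnM : ∀ M : Gal K Ω H, NumberField M.1 := fun M => by
    have : FiniteDimensional K M.1 := M.2.1
    exact nf _
  set g : Gal K Ω H → ℕ := fun M => (discr (F M)).natAbs with hg
  have hg1 : ∀ M, 1 ≤ g M := fun M => one_le (F M)
  have hu : 1 ≤ U.index := Nat.one_le_iff_ne_zero.2 Subgroup.index_ne_zero_of_finite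
  have huR : (1 : ℝ) ≤ U.index := by exact_mod_cast hu
  have hHpos : (0 : ℝ) < Nat.card H := by exact_mod_cast Nat.card_pos
  have hHU : (Nat.card U : ℝ) * (U.index : ℝ) = Nat.card H := by
    have h1 := Subgroup.card_mul_index U
    exact_mod_cast h1
  have hs0 : 0 < s := by
    have h1 : 0 ≤ e * (U.index : ℝ) := by positivity
    have h2 : 0 < s * Nat.card H := lt_of_le_of_lt h1 hes
    by_contra hneg
    have h3 : s * Nat.card H ≤ 0 := mul_nonpos_of_nonpos_of_nonneg (not_lt.1 hneg) hHpos.le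
    linarith
  set a : ℝ := s * Nat.card U with ha
  have hea : e < a := by
    have h1 : e * U.index < a * U.index := by
      rw [ha, mul_assoc, hHU]
      exact hes
    exact lt_of_mul_lt_mul_right h1 (by linarith)
  have ha0 : 0 < a := lt_of_le_of_lt he hea
  have hbound : ∀ M : Gal K Ω H, (dsc M.1) ^ (-s) ≤ (g M : ℝ) ^ (-a) := by
    intro M
    have h1 : (1 : ℝ) ≤ g M := by exact_mod_cast hg1 M
    have h2 : (g M : ℝ) ^ (Nat.card U) ≤ dsc M.1 := by
      refine le_trans (le_of_eq ?_) (hdsc M)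
      rw [dsc_eq (F M)]
    have h3 : ((g M : ℝ) ^ (Nat.card U)) ^ (-s) = (g M : ℝ) ^ (-a) := by
      rw [← Real.rpow_natCast, ← Real.rpow_mul (by positivity)]
      congr 1
      rw [ha]
      ring
    rw [← h3]
    exact Real.rpow_le_rpow_of_nonpos (by positivity) h2 (by linarith)
  have hC0 : ∀ k : ℕ, ∀ t : Finset (Gal K Ω H), (∀ M ∈ t, Nat.log 2 (g M) = k) →
      (t.card : ℝ) ≤ |C| * ((2 : ℝ) ^ (k + 1)) ^ e := by
    intro k t ht
    obtain ⟨hfin, hle⟩ := hC ((2 : ℝ) ^ (k + 1)) (one_le_pow₀ (by norm_num))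
    have hle' := hle.trans (mul_le_mul_of_nonneg_right (le_abs_self C)
      (by positivity : (0 : ℝ) ≤ ((2 : ℝ) ^ (k + 1)) ^ e))
    refine le_trans ?_ hle'
    have h1 : (t.map ⟨F, inj⟩).card ≤ Set.ncard {F : IntermediateField K Ω |
        FiniteDimensional K F ∧ Module.finrank K F = U.index ∧ dsc F ≤ (2 : ℝ) ^ (k + 1)} := by
      rw [← Set.ncard_coe_finset]
      refine Set.ncard_le_ncard ?_ hfin
      intro x hx
      rw [Finset.mem_coe, Finset.mem_map] at hx
      obtain ⟨M, hM, rfl⟩ := hx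
      refine ⟨hfd M, hfr M, ?_⟩
      change dsc (F M) ≤ (2 : ℝ) ^ (k + 1)
      rw [dsc_eq (F M)]
      have h2 : g M < 2 ^ (k + 1) := by
        rw [← ht M hM]
        exact Nat.lt_pow_succ_log_self (by norm_num) _
      have h3 : ((g M : ℕ) : ℝ) < (2 : ℝ) ^ (k + 1) := by exact_mod_cast h2
      exact h3.le
    rw [Finset.card_map] at h1
    exact_mod_cast h1
  have hC' : 0 ≤ |C| := abs_nonneg C
  set r : ℝ := (2 : ℝ) ^ (e - a) with hr
  have hr0 : 0 ≤ r := by positivity
  have hr1 : r < 1 := Real.rpow_lt_one_of_one_lt_of_neg (by norm_num) (by linarith)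
  have hsum2 : Summable (fun k : ℕ => r ^ k) := summable_geometric_of_lt_one hr0 hr1
  refine Summable.of_nonneg_of_le (fun M => ?_) hbound ?_
  · exact Real.rpow_nonneg (by rw [dsc_eq]; positivity) _
  refine summable_of_sum_le (c := |C| * 2 ^ e * ∑' k : ℕ, r ^ k) (fun M => by positivity) ?_
  intro t
  classical
  calc ∑ M ∈ t, (g M : ℝ) ^ (-a)
      = ∑ k ∈ t.image (fun M => Nat.log 2 (g M)),
          ∑ M ∈ t with Nat.log 2 (g M) = k, (g M : ℝ) ^ (-a) :=
        (Finset.sum_fiberwise_of_maps_to (fun M hM => Finset.mem_image_of_mem _ hM) _).symm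
    _ ≤ ∑ k ∈ t.image (fun M => Nat.log 2 (g M)), |C| * 2 ^ e * r ^ k := by
        refine Finset.sum_le_sum fun k _ => ?_
        have e1 : ∑ M ∈ t with Nat.log 2 (g M) = k, (g M : ℝ) ^ (-a) ≤
            ((t.filter (fun M => Nat.log 2 (g M) = k)).card : ℝ) * ((2 : ℝ) ^ k) ^ (-a) := by
          rw [← nsmul_eq_mul, ← Finset.sum_const]
          refine Finset.sum_le_sum fun M hM => ?_
          have h1 := (Finset.mem_filter.1 hM).2
          have h2 : 2 ^ k ≤ g M := by
            rw [← h1]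
            exact Nat.pow_log_le_self 2 (by have := hg1 M; omega)
          have h3 : (2 : ℝ) ^ k ≤ (g M : ℝ) := by exact_mod_cast h2
          exact Real.rpow_le_rpow_of_nonpos (by positivity) h3 (by linarith)
        refine e1.trans ?_
        calc ((t.filter (fun M => Nat.log 2 (g M) = k)).card : ℝ) * ((2 : ℝ) ^ k) ^ (-a)
            ≤ (|C| * ((2 : ℝ) ^ (k + 1)) ^ e) * ((2 : ℝ) ^ k) ^ (-a) := by
              refine mul_le_mul_of_nonneg_right ?_ (by positivity)
              exact hC0 k _ fun M hM => (Finset.mem_filter.1 hM).2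
          _ = |C| * 2 ^ e * r ^ k := by
              have h1 : ((2 : ℝ) ^ (k + 1)) ^ e * ((2 : ℝ) ^ k) ^ (-a) = 2 ^ e * r ^ k := by
                rw [hr, ← Real.rpow_natCast (2 : ℝ) (k + 1), ← Real.rpow_natCast (2 : ℝ) k,
                  ← Real.rpow_natCast ((2 : ℝ) ^ (e - a)) k, ← Real.rpow_mul (by norm_num),
                  ← Real.rpow_mul (by norm_num), ← Real.rpow_mul (by norm_num),
                  ← Real.rpow_add (by norm_num), ← Real.rpow_add (by norm_num)]
                congr 1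
                push_cast
                ring
              rw [mul_assoc, h1, mul_assoc]
    _ = |C| * 2 ^ e * ∑ k ∈ t.image (fun M => Nat.log 2 (g M)), r ^ k := by rw [Finset.mul_sum]
    _ ≤ |C| * 2 ^ e * ∑' k : ℕ, r ^ k := by
        refine mul_le_mul_of_nonneg_left ?_ (by positivity)
        exact hsum2.sum_le_tsum _ (fun k _ => by positivity)

end Pool.Agent.D0H49.MX
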