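import Pool.Agent.D0H64.MX.Stm
import Pool.Agent.TH228.J3101

set_option autoImplicit false

/-! Project MX (helper64), module FEWN: few Galois extensions with a given group. -/

namespace Pool.Agent.D0H49.MX

open NumberField Filter Topology Pool.Agent.TH444.ML Pool.Agent.D0H64.MX
open Pool.Agent.TH228.J3101 (nf dsc_eq one_le main)

theorem t_FEWN (h : HermiteRel) : S_FEWN := by
  intro K Ω _ _ _ _ _ H _ _ U hU
  obtain ⟨C, hC⟩ := h K Ω U.index
  have key : ∀ M : Gal K Ω H, ∃ F : IntermediateField K Ω, FiniteDimensional K F ∧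
      Module.finrank K F = U.index ∧ F ≤ M.1 ∧ dsc F ^ Nat.card U ≤ dsc M.1 ∧
      ∀ N : IntermediateField K Ω, Normal K N → F ≤ N → N ≤ M.1 → N = M.1 := by
    rintro ⟨M, hfd, hg, ⟨e⟩⟩
    exact main M e U hU
  choose F hfd hfr hFM hdsc hN using key
  have inj : Function.Injective F := by
    intro M1 M2 h12
    have g1 : IsGalois K M1.1 := M1.2.2.1
    have g2 : IsGalois K M2.1 := M2.2.2.1
    have hn : Normal K (M1.1 ⊓ M2.1 : IntermediateField K Ω) := inferInstance
    have e1 := hN M1 (M1.1 ⊓ M2.1) hn (le_inf (hFM M1) (by rw [h12]; exact hFM M2)) inf_le_left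
    have e2 := hN M2 (M1.1 ⊓ M2.1) hn (le_inf (by rw [← h12]; exact hFM M1) (hFM M2))
      inf_le_right
    exact Subtype.ext (e1.symm.trans e2)
  have hnF : ∀ M, NumberField (F M) := fun M => by have := hfd M; exact nf _
  have hnM : ∀ M : Gal K Ω H, NumberField M.1 := fun M => by
    have : FiniteDimensional K M.1 := M.2.1
    exact nf _
  set g : Gal K Ω H → ℕ := fun M => (discr (F M)).natAbs with hg
  have hg1 : ∀ M, 1 ≤ g M := fun M => one_le (F M)
  have hu : 1 ≤ U.index := Nat.one_le_iff_ne_zero.2 Subgroup.index_ne_zero_of_finite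
  have hHpos : (0 : ℝ) < Nat.card H := by exact_mod_cast Nat.card_pos
  have hHU : (Nat.card U : ℝ) * (U.index : ℝ) = Nat.card H := by
    have h1 := Subgroup.card_mul_index U
    exact_mod_cast h1
  have hbound : ∀ M : Gal K Ω H,
      (dsc M.1) ^ (-(2 * U.index * (U.index + 1) / Nat.card H : ℝ)) ≤
      (1 : ℝ) / (g M : ℝ) ^ (2 * U.index + 2) := by
    intro M
    have h1 : (1 : ℝ) ≤ g M := by exact_mod_cast hg1 M
    have h2 : (g M : ℝ) ^ (Nat.card U) ≤ dsc M.1 := by
      refine le_trans (le_of_eq ?_) (hdsc M)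
      rw [dsc_eq (F M)]
    have h3 : ((g M : ℝ) ^ (Nat.card U)) ^ (-(2 * U.index * (U.index + 1) / Nat.card H : ℝ)) =
        (1 : ℝ) / (g M : ℝ) ^ (2 * U.index + 2) := by
      have h4 : (1 : ℝ) / (g M : ℝ) ^ (2 * U.index + 2) =
          (g M : ℝ) ^ (-((2 * U.index + 2 : ℕ) : ℝ)) := by
        rw [Real.rpow_neg (by positivity), Real.rpow_natCast, one_div]
      rw [h4, ← Real.rpow_natCast, ← Real.rpow_mul (by positivity)]
      congr 1
      push_cast
      have h5 : (Nat.card H : ℝ) ≠ 0 := hHpos.ne'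
      rw [mul_neg, neg_inj, mul_div_assoc', div_eq_iff h5, ← hHU]
      ring
    rw [← h3]
    refine Real.rpow_le_rpow_of_nonpos (by positivity) h2 ?_
    rw [Left.neg_nonpos_iff]
    positivity
  have hC0 : ∀ m : ℕ, 1 ≤ m → ∀ s : Finset (Gal K Ω H), (∀ M ∈ s, g M = m) →
      (s.card : ℝ) ≤ C * (m : ℝ) ^ (2 * U.index) := by
    intro m hm s hs
    obtain ⟨hfin, hle⟩ := hC m (by exact_mod_cast hm)
    refine le_trans ?_ hle
    have h1 : (s.map ⟨F, inj⟩).card ≤ Set.ncard {F : IntermediateField K Ω |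
        FiniteDimensional K F ∧ Module.finrank K F = U.index ∧ dsc F ≤ (m : ℝ)} := by
      rw [← Set.ncard_coe_finset]
      refine Set.ncard_le_ncard ?_ hfin
      intro x hx
      rw [Finset.mem_coe, Finset.mem_map] at hx
      obtain ⟨M, hM, rfl⟩ := hx
      refine ⟨hfd M, hfr M, ?_⟩
      change dsc (F M) ≤ m
      rw [dsc_eq (F M), ← hs M hM]
    rw [Finset.card_map] at h1
    exact_mod_cast h1
  have hC' : 0 ≤ |C| := abs_nonneg C
  have hsum2 : Summable (fun m : ℕ => (1 : ℝ) / (m : ℝ) ^ 2) :=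
    Real.summable_one_div_nat_pow.2 (by norm_num)
  refine Summable.of_nonneg_of_le (fun M => ?_) hbound ?_
  · exact Real.rpow_nonneg (by rw [dsc_eq]; positivity) _
  refine summable_of_sum_le (c := |C| * ∑' m : ℕ, (1 : ℝ) / (m : ℝ) ^ 2) (fun M => by positivity) ?_
  intro s
  classical
  calc ∑ M ∈ s, (1 : ℝ) / (g M : ℝ) ^ (2 * U.index + 2)
      = ∑ m ∈ s.image g, ∑ M ∈ s with g M = m, (1 : ℝ) / (g M : ℝ) ^ (2 * U.index + 2) :=
        (Finset.sum_fiberwise_of_maps_to (fun M hM => Finset.mem_image_of_mem g hM) _).symm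
    _ ≤ ∑ m ∈ s.image g, |C| * ((1 : ℝ) / (m : ℝ) ^ 2) := by
        refine Finset.sum_le_sum fun m hm => ?_
        obtain ⟨M0, hM0, hM0'⟩ := Finset.mem_image.1 hm
        have hm1 : 1 ≤ m := hM0' ▸ hg1 M0
        have hmpos : (0 : ℝ) < m := by exact_mod_cast hm1
        have e1 : ∑ M ∈ s with g M = m, (1 : ℝ) / (g M : ℝ) ^ (2 * U.index + 2) =
            ((s.filter (fun M => g M = m)).card : ℝ) * (1 / (m : ℝ) ^ (2 * U.index + 2)) := by
          rw [Finset.sum_congr rfl (g := fun _ => (1 : ℝ) / (m : ℝ) ^ (2 * U.index + 2)),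
            Finset.sum_const, nsmul_eq_mul]
          intro M hM
          rw [(Finset.mem_filter.1 hM).2]
        rw [e1]
        calc ((s.filter (fun M => g M = m)).card : ℝ) * (1 / (m : ℝ) ^ (2 * U.index + 2))
            ≤ (|C| * (m : ℝ) ^ (2 * U.index)) * (1 / (m : ℝ) ^ (2 * U.index + 2)) := by
              refine mul_le_mul_of_nonneg_right ?_ (by positivity)
              refine (hC0 m hm1 _ fun M hM => (Finset.mem_filter.1 hM).2).trans ?_
              exact mul_le_mul_of_nonneg_right (le_abs_self C) (by positivity)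
          _ = |C| * ((1 : ℝ) / (m : ℝ) ^ 2) := by
              rw [pow_add]
              field_simp
    _ = |C| * ∑ m ∈ s.image g, (1 : ℝ) / (m : ℝ) ^ 2 := by rw [Finset.mul_sum]
    _ ≤ |C| * ∑' m : ℕ, (1 : ℝ) / (m : ℝ) ^ 2 := by
        refine mul_le_mul_of_nonneg_left ?_ hC'
        exact hsum2.sum_le_tsum _ (fun m _ => by positivity)

end Pool.Agent.D0H49.MX
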