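import Pool.Agent.D0H64.MX.Stm
import Pool.Agent.TH228.J3101

set_option autoImplicit false

/-! Project MX (helper64), module FEWX: summability over the extensions with group `H` on `X`. -/

namespace Pool.Agent.D0H49.MX

open NumberField Filter Topology Pool.Agent.TH444.ML Pool.Agent.D0H64.MX

theorem one_le_dsc {K Ω : Type} [Field K] [Field Ω] [Algebra K Ω] (M : IntermediateField K Ω) :
    1 ≤ dsc M := by
  unfold dsc
  split_ifs with h
  · have h1 : (1 : ℤ) ≤ |@discr M _ h| := by
      have h2 := @discr_ne_zero M _ h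
      exact Int.one_le_abs h2
    exact_mod_cast h1
  · exact le_rfl

theorem t_FEWX (hN : S_NBD) (hF : S_FEWN) (hfib : S_FIB) : S_FEWX := by
  classical
  intro K Ω _ _ _ _ _ H X _ _ _ _ _ U hU B hB hBf hcard
  have hsum := hF K Ω H U hU
  have key := fun M : GalX K Ω H X => hN K Ω H X B hB hBf M.1 M.2
  let N : GalX K Ω H X → Gal K Ω H := fun M =>
    ⟨IntermediateField.normalClosure K M.1 Ω, (key M).1⟩
  have hu : 1 ≤ U.index := Nat.one_le_iff_ne_zero.2 Subgroup.index_ne_zero_of_finite
  have hBc : 1 ≤ B.card := hB.card_pos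
  have hXn : Nonempty X := ⟨hB.choose⟩
  have hXpos : (0 : ℝ) < Nat.card X := by exact_mod_cast Nat.card_pos
  have hHpos : (0 : ℝ) < Nat.card H := by exact_mod_cast Nat.card_pos
  have hBpos : (0 : ℝ) < B.card := by exact_mod_cast hBc
  set t : ℝ := 2 * U.index * (U.index + 1) / Nat.card H with ht
  have ht0 : 0 ≤ t := by positivity
  let G : Gal K Ω H → ℝ := fun N => (dsc N.1) ^ (-t)
  have hG0 : ∀ N, 0 ≤ G N := fun N => Real.rpow_nonneg (zero_le_one.trans (one_le_dsc N.1)) _
  -- the pointwise bound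
  have hbound : ∀ M : GalX K Ω H X, (dsc M.1) ^ (-(1 / 4) : ℝ) ≤ G (N M) := by
    intro M
    have h1 : dsc (N M).1 ≤ dsc M.1 ^ (B.card * (Nat.card H / Nat.card X)) := (key M).2
    have h2 : dsc M.1 ^ (B.card * (Nat.card H / Nat.card X)) ≤
        dsc M.1 ^ ((B.card : ℝ) * ((Nat.card H : ℝ) / (Nat.card X : ℝ))) := by
      rw [← Real.rpow_natCast]
      refine Real.rpow_le_rpow_of_exponent_le (one_le_dsc M.1) ?_
      push_cast
      exact mul_le_mul_of_nonneg_left Nat.cast_div_le hBpos.le
    have h3 : dsc (N M).1 ≤ dsc M.1 ^ ((B.card : ℝ) * ((Nat.card H : ℝ) / (Nat.card X : ℝ))) :=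
      h1.trans h2
    have h0 : (0 : ℝ) < dsc M.1 := lt_of_lt_of_le zero_lt_one (one_le_dsc M.1)
    have h0' : (0 : ℝ) < dsc (N M).1 := lt_of_lt_of_le zero_lt_one (one_le_dsc _)
    have h4 : (dsc M.1 ^ ((B.card : ℝ) * ((Nat.card H : ℝ) / (Nat.card X : ℝ)))) ^ (-t) ≤
        G (N M) := Real.rpow_le_rpow_of_nonpos h0' h3 (by linarith)
    refine le_trans ?_ h4
    rw [← Real.rpow_mul h0.le]
    refine Real.rpow_le_rpow_of_exponent_le (one_le_dsc M.1) ?_
    have h5 : (B.card : ℝ) * ((Nat.card H : ℝ) / (Nat.card X : ℝ)) * (-t) =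
        -((B.card : ℝ) * (2 * U.index * (U.index + 1)) / (Nat.card X : ℝ)) := by
      rw [ht]
      field_simp
    rw [h5, neg_le_neg_iff, div_le_iff₀ hXpos]
    have h6 : (8 : ℝ) * B.card * U.index * (U.index + 1) ≤ Nat.card X := by
      exact_mod_cast hcard
    linarith
  refine Summable.of_nonneg_of_le
    (fun M => Real.rpow_nonneg (zero_le_one.trans (one_le_dsc M.1)) _) hbound ?_
  refine summable_of_sum_le (c := (2 : ℝ) ^ Nat.card H * ∑' n, G n) (fun M => hG0 _) ?_
  intro s
  calc ∑ M ∈ s, G (N M)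
      = ∑ n ∈ s.image N, ∑ M ∈ s with N M = n, G (N M) :=
        (Finset.sum_fiberwise_of_maps_to (fun M hM => Finset.mem_image_of_mem N hM) _).symm
    _ ≤ ∑ n ∈ s.image N, (2 : ℝ) ^ Nat.card H * G n := by
        refine Finset.sum_le_sum fun n _ => ?_
        have e1 : ∑ M ∈ s with N M = n, G (N M) =
            ((s.filter (fun M => N M = n)).card : ℝ) * G n := by
          rw [Finset.sum_congr rfl (g := fun _ => G n), Finset.sum_const, nsmul_eq_mul]
          intro M hM
          rw [(Finset.mem_filter.1 hM).2]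
        rw [e1]
        refine mul_le_mul_of_nonneg_right ?_ (hG0 n)
        obtain ⟨hfin, hle⟩ := hfib K Ω H n.1 n.2
        have h1 : (s.filter (fun M => N M = n)).card ≤
            Set.ncard {M : IntermediateField K Ω | M ≤ n.1} := by
          have h2 : ((s.filter (fun M => N M = n)).map ⟨Subtype.val, Subtype.val_injective⟩).card ≤
              Set.ncard {M : IntermediateField K Ω | M ≤ n.1} := by
            rw [← Set.ncard_coe_finset]
            refine Set.ncard_le_ncard ?_ hfin
            intro x hx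
            rw [Finset.mem_coe, Finset.mem_map] at hx
            obtain ⟨M, hM, rfl⟩ := hx
            have h3 := (Finset.mem_filter.1 hM).2
            change M.1 ≤ n.1
            rw [← h3]
            exact IntermediateField.le_normalClosure M.1
          rwa [Finset.card_map] at h2
        exact_mod_cast h1.trans hle
    _ = (2 : ℝ) ^ Nat.card H * ∑ n ∈ s.image N, G n := by rw [Finset.mul_sum]
    _ ≤ (2 : ℝ) ^ Nat.card H * ∑' n, G n :=
        mul_le_mul_of_nonneg_left (hsum.sum_le_tsum _ (fun n _ => hG0 n)) (by positivity)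

end Pool.Agent.D0H49.MX
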