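import Pool.Agent.D0H64.MX.Stm4
import Pool.Agent.D0H16.MX.Cmpd

/-!
# Project MX (helper64), module KFLD: comparison of discriminants over every number field
-/

set_option autoImplicit false

open NumberField Polynomial

namespace Pool.Agent.D0H49.MX

open Pool.Agent.D0H64.MX
open Pool.Agent.D0H15.TI (orb)

section Gal

variable {K N E : Type} [Field K] [NumberField K] [Field N] [NumberField N] [Field E] [NumberField E]
  [Algebra K N] [Algebra N E] [Algebra K E] [IsScalarTower K N E]

/-- the image of a subfield of `N` in `E`, over `ℚ` -/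
noncomputable def img (L : IntermediateField K N) : IntermediateField ℚ E :=
  (((algebraMap N E).comp (algebraMap L N)).toRatAlgHom).fieldRange

theorem mem_img (L : IntermediateField K N) (y : E) :
    y ∈ (img L : IntermediateField ℚ E) ↔ ∃ x ∈ L, algebraMap N E x = y := by
  unfold img
  rw [AlgHom.mem_fieldRange]
  constructor
  · rintro ⟨x, hx⟩
    exact ⟨x, x.2, hx⟩
  · rintro ⟨x, hx, h⟩
    exact ⟨⟨x, hx⟩, h⟩

theorem discr_img (L : IntermediateField K N) (hL : NumberField L) :
    NumberField.discr (img L : IntermediateField ℚ E) = NumberField.discr L := by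
  let φ : L →ₐ[ℚ] E := ((algebraMap N E).comp (algebraMap L N)).toRatAlgHom
  exact (NumberField.discr_eq_discr_of_algEquiv L (AlgEquiv.ofInjectiveField φ)).symm

variable (K N E) in
/-- the inclusion of Galois groups -/
noncomputable def jj : (E ≃ₐ[K] E) →* (E ≃ₐ[ℚ] E) := AlgEquiv.restrictScalarsHom ℚ

theorem jj_inj : Function.Injective (jj K E) := by
  intro s t h
  ext x
  exact congrArg (fun u : E ≃ₐ[ℚ] E => u x) h

/-- restriction to `N` followed by `r` -/
noncomputable def rr [Normal K N] {m : ℕ} (r : (N ≃ₐ[K] N) ≃* Equiv.Perm (Fin m)) :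
    (jj K E).range →* Equiv.Perm (Fin m) :=
  (r.toMonoidHom.comp (AlgEquiv.restrictNormalHom N)).comp
    (MonoidHom.ofInjective (jj_inj (K := K) (E := E))).symm.toMonoidHom

theorem rr_apply [Normal K N] {m : ℕ} (r : (N ≃ₐ[K] N) ≃* Equiv.Perm (Fin m)) (s : E ≃ₐ[K] E)
    (h : jj K E s ∈ (jj K E).range) :
    rr (N := N) r ⟨jj K E s, h⟩ = r (AlgEquiv.restrictNormalHom N s) := by
  have h1 : (⟨jj K E s, h⟩ : (jj K E).range) = MonoidHom.ofInjective (jj_inj (K := K) (E := E)) s := rfl
  rw [h1]
  show r (AlgEquiv.restrictNormalHom N ((MonoidHom.ofInjective (jj_inj (K := K) (E := E))).symm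
    (MonoidHom.ofInjective (jj_inj (K := K) (E := E)) s))) = _
  rw [MulEquiv.symm_apply_apply]

theorem rr_surj [Normal K N] [Normal K E] {m : ℕ} (r : (N ≃ₐ[K] N) ≃* Equiv.Perm (Fin m)) :
    Function.Surjective (rr (E := E) (N := N) r) := by
  intro π
  obtain ⟨s, hs⟩ := AlgEquiv.restrictNormalHom_surjective (F := K) (K₁ := N) E (r.symm π)
  refine ⟨⟨jj K E s, ⟨s, rfl⟩⟩, ?_⟩
  rw [rr_apply, hs, MulEquiv.apply_symm_apply]

theorem pre_eq [Normal K N] {m : ℕ} (r : (N ≃ₐ[K] N) ≃* Equiv.Perm (Fin m)) (L : IntermediateField K N)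
    (V : Subgroup (Equiv.Perm (Fin m))) (hV : L.fixingSubgroup.map r.toMonoidHom = V) :
    (img L : IntermediateField ℚ E).fixingSubgroup = Pre (jj K E).range (rr r) V := by
  ext g
  rw [IntermediateField.mem_fixingSubgroup_iff]
  unfold Pre
  rw [Subgroup.mem_map]
  constructor
  · intro hg
    have hK : ∀ c : K, g (algebraMap K E c) = algebraMap K E c := by
      intro c
      apply hg
      rw [mem_img]
      exact ⟨algebraMap K N c, L.algebraMap_mem c, (IsScalarTower.algebraMap_apply K N E c).symm⟩
    let s : E ≃ₐ[K] E := AlgEquiv.ofRingEquiv (f := g.toRingEquiv) hK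
    have hs : jj K E s = g := by
      ext x
      rfl
    refine ⟨⟨jj K E s, ⟨s, rfl⟩⟩, ?_, hs⟩
    rw [Subgroup.mem_comap, rr_apply, ← hV]
    refine Subgroup.mem_map.2 ⟨AlgEquiv.restrictNormalHom N s, ?_, rfl⟩
    rw [IntermediateField.mem_fixingSubgroup_iff]
    intro x hx
    apply (algebraMap N E).injective
    have h1 : algebraMap N E ((AlgEquiv.restrictNormalHom N s) x) = s (algebraMap N E x) :=
      AlgEquiv.restrictNormal_commutes s N x
    rw [h1]
    exact hg _ ((mem_img L _).2 ⟨x, hx, rfl⟩)
  · rintro ⟨⟨g', hg'⟩, h1, rfl⟩ y hy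
    obtain ⟨s, rfl⟩ := hg'
    rw [Subgroup.mem_comap, rr_apply, ← hV] at h1
    obtain ⟨t, ht, htr⟩ := Subgroup.mem_map.1 h1
    have h2 : t = AlgEquiv.restrictNormalHom N s := r.injective htr
    rw [h2, IntermediateField.mem_fixingSubgroup_iff] at ht
    obtain ⟨x, hx, rfl⟩ := (mem_img L y).1 hy
    have h3 : algebraMap N E ((AlgEquiv.restrictNormalHom N s) x) = s (algebraMap N E x) :=
      AlgEquiv.restrictNormal_commutes s N x
    rw [ht x hx] at h3
    exact h3.symm

end Gal

/-- the core of a subgroup under an isomorphism -/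
theorem core_map {G P : Type} [Group G] [Group P] (r : G ≃* P) (H : Subgroup G) (hH : H.normalCore = ⊥) :
    (H.map r.toMonoidHom).normalCore = ⊥ := by
  rw [eq_bot_iff]
  intro x hx
  have h1 : r.symm x ∈ H.normalCore := by
    intro b
    have h2 : r b * x * (r b)⁻¹ ∈ H.map r.toMonoidHom := hx (r b)
    obtain ⟨y, hy, h3⟩ := Subgroup.mem_map.1 h2
    have h4 : y = b * r.symm x * b⁻¹ := by
      apply r.injective
      rw [map_mul, map_mul, map_inv, MulEquiv.apply_symm_apply]
      exact h3
    rw [← h4]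
    exact hy
  rw [hH, Subgroup.mem_bot] at h1
  rw [Subgroup.mem_bot]
  have h5 := congrArg r h1
  rwa [MulEquiv.apply_symm_apply, map_one] at h5

/-- the tame part -/
theorem tame (hIND : Pool.Agent.D0H15.TI.S_IND) (C m : ℕ)
    (hKORB : ∀ (G : Type) [Group G] [Finite G] (A : Subgroup G)
      (ρ : A →* Equiv.Perm (Fin m)), Function.Surjective ρ →
      ∀ V : Subgroup (Equiv.Perm (Fin m)), V.normalCore = ⊥ → ∀ (i : Fin m) (I : Subgroup G),
      V.index * ((Pre A ρ (MulAction.stabilizer (Equiv.Perm (Fin m)) i)).index -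
        orb I (Pre A ρ (MulAction.stabilizer (Equiv.Perm (Fin m)) i))) ≤
      C * m * Nat.log 2 m * ((Pre A ρ V).index - orb I (Pre A ρ V)))
    {K N E : Type} [Field K] [NumberField K] [Field N] [NumberField N] [Field E] [NumberField E]
    [Algebra K N] [Algebra N E] [Algebra K E] [IsScalarTower K N E] [IsGalois K N] [IsGalois ℚ E] [Normal K E]
    (r : (N ≃ₐ[K] N) ≃* Equiv.Perm (Fin m)) (M F : IntermediateField K N)
    (hM : M.fixingSubgroup.normalCore = ⊥) (i : Fin m)
    (hF : F.fixingSubgroup.map r.toMonoidHom = MulAction.stabilizer (Equiv.Perm (Fin m)) i)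
    (hNF : NumberField F) (hNM : NumberField M)
    (p : ℕ) (hp : p.Prime) (hpE : ¬ p ∣ Module.finrank ℚ E) :
    Module.finrank K M * padicValNat p (NumberField.discr F).natAbs ≤
      C * m * Nat.log 2 m * padicValNat p (NumberField.discr M).natAbs := by
  obtain ⟨I, hI⟩ := hIND E p hp hpE
  have h1 := hKORB (E ≃ₐ[ℚ] E) (jj K E).range (rr (N := N) r) (rr_surj r)
    (M.fixingSubgroup.map r.toMonoidHom) (core_map r _ hM) i I
  rw [← pre_eq r M _ rfl, ← pre_eq r F _ hF] at h1
  have h2 := hI (img M)
  have h3 := hI (img F)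
  rw [IntermediateField.finrank_eq_fixingSubgroup_index E, discr_img M hNM] at h2
  rw [IntermediateField.finrank_eq_fixingSubgroup_index E, discr_img F hNF] at h3
  have h4 : (img F : IntermediateField ℚ E).fixingSubgroup.index -
      orb I (img F : IntermediateField ℚ E).fixingSubgroup = padicValNat p (NumberField.discr F).natAbs := by omega
  have h5 : (img M : IntermediateField ℚ E).fixingSubgroup.index -
      orb I (img M : IntermediateField ℚ E).fixingSubgroup = padicValNat p (NumberField.discr M).natAbs := by omega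
  have h6 : (M.fixingSubgroup.map r.toMonoidHom).index = Module.finrank K M := by
    rw [IntermediateField.finrank_eq_fixingSubgroup_index N]
    exact Subgroup.index_map_equiv M.fixingSubgroup r
  rw [h4, h5, h6] at h1
  exact h1

/-- a Galois extension of `ℚ` containing `N`, of bounded degree -/
theorem exists_E (N : Type) [Field N] [NumberField N] : ∃ (E : Type) (_ : Field E) (_ : NumberField E)
    (_ : Algebra N E), IsGalois ℚ E ∧ Module.finrank ℚ E ≤ (Module.finrank ℚ N).factorial := by
  let pb := Field.powerBasisOfFiniteOfSeparable ℚ N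
  let P : ℚ[X] := minpoly ℚ pb.gen
  have hdeg : P.natDegree = Module.finrank ℚ N := by
    rw [pb.finrank]; exact pb.natDegree_minpoly
  have hirr : Irreducible P := minpoly.irreducible (Algebra.IsIntegral.isIntegral pb.gen)
  let E : Type := P.SplittingField
  let _ : Field E := Polynomial.SplittingField.instField P
  have hNF : NumberField E :=
    { to_charZero := inferInstanceAs (CharZero P.SplittingField)
      to_finiteDimensional := inferInstanceAs (FiniteDimensional ℚ P.SplittingField) }
  have hnorm : Normal ℚ E := by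
    have h0 := IsSplittingField.splittingField P
    have h := @Normal.of_isSplittingField _ _ _ _ _ P h0
    convert h
    exact Subsingleton.elim _ _
  have hgal : IsGalois ℚ E := ⟨⟩
  obtain ⟨y, hy⟩ : ∃ y : E, aeval y P = 0 := by
    have h1 : (P.map (algebraMap ℚ P.SplittingField)).Splits := SplittingField.splits P
    have h2 : (P.map (algebraMap ℚ P.SplittingField)).degree ≠ 0 := by
      rw [degree_map]
      exact hirr.degree_pos.ne'
    obtain ⟨y, hy⟩ := h1.exists_eval_eq_zero h2
    refine ⟨y, ?_⟩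
    rw [eval_map] at hy
    rw [aeval_def, ← hy]
  let φ : N →ₐ[ℚ] E := pb.lift y hy
  refine ⟨E, inferInstance, hNF, φ.toRingHom.toAlgebra, hgal, ?_⟩
  have hsep : P.Separable := hirr.separable
  have h3 := Polynomial.Gal.card_of_separable hsep
  have h4 : Module.finrank ℚ E = Nat.card P.Gal := by
    rw [h3]
  rw [h4]
  have hF : Fact ((P.map (algebraMap ℚ P.SplittingField)).Splits) := ⟨SplittingField.splits P⟩
  have h5 := Nat.card_le_card_of_injective _ (Polynomial.Gal.galActionHom_injective P P.SplittingField)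
  refine h5.trans ?_
  classical
  rw [Nat.card_perm]
  apply Nat.factorial_le
  rw [← hdeg, Nat.card_coe_set_eq]
  exact Polynomial.ncard_rootSet_le P P.SplittingField

theorem kfld_of (hIND : Pool.Agent.D0H15.TI.S_IND) : S_KORB → S_WILD → S_KFLD := by
  rintro ⟨C, hC⟩ hW
  refine ⟨C, fun m hm K Ω _ _ _ _ _ => ?_⟩
  set T : ℕ := (Module.finrank ℚ K * m.factorial).factorial with hT
  set R : ℕ := ∏ p ∈ (Finset.range (T + 1)).filter Nat.Prime, p with hR
  refine ⟨R ^ (m.factorial * T ^ 2), ?_⟩
  intro N _ _ _ r M F hM hi hNF hNM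
  obtain ⟨i, hF⟩ := hi
  obtain ⟨E, hE1, hE2, hE3, hgal, hdeg⟩ := exists_E N
  let _ : Algebra K E := ((algebraMap N E).comp (algebraMap K N)).toAlgebra
  have : IsScalarTower K N E := IsScalarTower.of_algebraMap_eq (fun _ => rfl)
  have : IsScalarTower ℚ K E := inferInstance
  have hnQ : Normal ℚ E := inferInstance
  have : Normal K E := Normal.tower_top_of_normal ℚ K E
  have hcard : Module.finrank K N = m.factorial := by
    rw [← IsGalois.card_aut_eq_finrank K N, Nat.card_congr r.toEquiv, Nat.card_eq_fintype_card,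
      Fintype.card_perm, Fintype.card_fin]
  have hQN : Module.finrank ℚ N = Module.finrank ℚ K * m.factorial := by
    rw [← hcard]
    exact (Module.finrank_mul_finrank ℚ K N).symm
  have hET : Module.finrank ℚ E ≤ T := by
    rw [hT, ← hQN]
    exact hdeg
  have hMle : Module.finrank K M ≤ m.factorial := by
    rw [← hcard]
    exact Nat.le_of_dvd Module.finrank_pos ⟨Module.finrank M N, (Module.finrank_mul_finrank K M N).symm⟩
  have hR0 : R ≠ 0 := (Finset.prod_pos fun p hp => (Finset.mem_filter.1 hp).2.pos).ne'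
  have hdF : (NumberField.discr F).natAbs ≠ 0 := Int.natAbs_ne_zero.2 (NumberField.discr_ne_zero F)
  have hdM : (NumberField.discr M).natAbs ≠ 0 := Int.natAbs_ne_zero.2 (NumberField.discr_ne_zero M)
  have hdE : (NumberField.discr E).natAbs ≠ 0 := Int.natAbs_ne_zero.2 (NumberField.discr_ne_zero E)
  have hrhs : R ^ (m.factorial * T ^ 2) * (NumberField.discr M).natAbs ^ (C * m * Nat.log 2 m) ≠ 0 :=
    mul_ne_zero (pow_ne_zero _ hR0) (pow_ne_zero _ hdM)
  refine Nat.le_of_dvd (Nat.pos_of_ne_zero hrhs) ?_
  rw [← Nat.factorization_prime_le_iff_dvd (pow_ne_zero _ hdF) hrhs]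
  intro p hp
  rw [Nat.factorization_mul (pow_ne_zero _ hR0) (pow_ne_zero _ hdM), Nat.factorization_pow, Nat.factorization_pow,
    Nat.factorization_pow]
  simp only [Finsupp.add_apply, Finsupp.smul_apply, smul_eq_mul]
  rw [Nat.factorization_def _ hp, Nat.factorization_def _ hp, Nat.factorization_def _ hp]
  by_cases hpm : T < p
  · have hpE : ¬ p ∣ Module.finrank ℚ E := by
      intro h
      have := Nat.le_of_dvd Module.finrank_pos h
      omega
    have h1 := tame hIND C m (fun G _ _ A ρ hρ V hV i I => hC m hm G A ρ hρ V hV i I)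
      (K := K) (N := N) (E := E) r M F hM i hF hNF hNM p hp hpE
    omega
  · have h2 : padicValNat p (NumberField.discr F).natAbs ≤ T ^ 2 := by
      have : Fact p.Prime := ⟨hp⟩
      have h3 : (NumberField.discr F).natAbs ∣ (NumberField.discr E).natAbs := by
        rw [← discr_img (E := E) F hNF]
        exact Int.natAbs_dvd_natAbs.2 (NumberField.discr_dvd_discr _ E)
      have h4 := hW E p hp
      have h5 : Module.finrank ℚ E ^ 2 ≤ T ^ 2 := Nat.pow_le_pow_left hET 2
      exact ((padicValNat_dvd_iff_le hdE).1 (dvd_trans pow_padicValNat_dvd h3)).trans (h4.trans h5)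
    have h5 : 1 ≤ padicValNat p R := by
      have : Fact p.Prime := ⟨hp⟩
      apply one_le_padicValNat_of_dvd hR0
      exact Finset.dvd_prod_of_mem _ (Finset.mem_filter.2 ⟨Finset.mem_range.2 (by omega), hp⟩)
    have h6 : Module.finrank K M * padicValNat p (NumberField.discr F).natAbs ≤
        m.factorial * T ^ 2 * padicValNat p R := by
      calc Module.finrank K M * padicValNat p (NumberField.discr F).natAbs
          ≤ m.factorial * T ^ 2 := Nat.mul_le_mul hMle h2
        _ = m.factorial * T ^ 2 * 1 := by ring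
        _ ≤ _ := Nat.mul_le_mul_left _ h5
    omega

/-- Module KFLD. -/
theorem t_KFLD : S_KORB → S_WILD → S_KFLD :=
  kfld_of (Pool.Agent.D0H21.TI.t_IND Pool.Agent.D0H21.TI.t_BURN Pool.Agent.D0H10.TI.t_TAME
    Pool.Agent.D0H53.TI.t_NRM)

end Pool.Agent.D0H49.MX
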